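import Pool.Agent.Helper932CL.Circ

/-!
# Extreme values of the error term of the circle problem along geometric sequences

`P(R)` is the error term of the circle problem.  Let `R_n = b_n α ^ (a_n)` where `a_n` (eventually positive) and
`b_n > 0` are nondecreasing and `(a_{n+1} - a_n) + log (b_{n+1} / b_n) ≥ δ > 0` for all `n`.  For example
`R_n = α ^ n`, or `R_n = α q_n` with any positive `q_n` such that `q_{n+1} ≥ (1 + δ) q_n`.  Then for almost all
`α > 1`:

* `|P(R_n)| ≤ (log n) ^ (1/4 + ε) √R_n` for all large `n`, for every `ε > 0`;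
* for every `ε > 0` and `η > 0` and all large `N` there are `n` and `m` in `(N, N + N ^ η]` with
  `P(R_n) ≥ (log N) ^ (1/4 - ε) √R_n` and `P(R_m) ≤ - (log N) ^ (1/4 - ε) √R_m`.

So the upper limits of `P(R_n) / √R_n` and `- P(R_n) / √R_n` have the exact logarithmic order `(log n) ^ (1/4)`, and
values of this size, of both signs, occur in all short blocks of indices.

Proof.  For `y = log α` in a compact interval the difference between `P(R_n) / √R_n` and the truncation `U` at
indices `m ≤ n ^ 1600` of its trigonometric series `∑ r(m) / π m ^ (-3/4) cos (2 π √m R - 3 π / 4)` tends to zero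
almost everywhere.
Upper bound: write `m = l² s` with `s` squarefree.  For fixed `l` the frequencies `√m` are independent over the
rationals, so the moment of order `2k` of the part with `m > k` and this `l`, with respect to `y`, is at most
`k! (∑ r(m)² m ^ (-3/2)) ^ k` up to a term that is small since `R_n` grows exponentially (a lower bound for the
differences of sums of `k` square roots is needed).  With `k ≍ log n` and Markov's inequality the upper bound follows by
the Borel–Cantelli lemma.
Lower bound: in a window `[R, R + H]` of length `H = exp (N ^ (η / 4))` a Riesz product at `(log N) ^ (1 - ε)`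
frequencies `√m` with independent `√m` and `r(m) > 0` shows that `± U ≥ (log N) ^ (1/4 - ε)` on a part of the window of
measure at least `H N ^ (-η / 8)`.  The functions `y ↦ R_n(y)` oscillate faster and faster, so the blocks
`(N, N + N ^ η]` contain more than `N ^ (η / 4) / 2` almost independent trials (nested intervals).
-/

set_option autoImplicit false

open MeasureTheory Filter Topology

namespace Pool.Agent.Results.MP_fb29e9_nt.ExtremesAlongPowers

/-- the error term of the circle problem -/
noncomputable def P (R : ℝ) : ℝ :=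
  (Nat.card {p : ℤ × ℤ // (p.1 : ℝ) ^ 2 + (p.2 : ℝ) ^ 2 ≤ R ^ 2} : ℝ) - Real.pi * R ^ 2

theorem result (a b : ℕ → ℝ) (δ : ℝ) (hδ : 0 < δ) (ha : Monotone a) (ha0 : ∃ n, 0 < a n) (hb : Monotone b)
    (hb0 : ∀ n, 0 < b n) (hgap : ∀ n, δ ≤ (a (n + 1) - a n) + (Real.log (b (n + 1)) - Real.log (b n))) :
    ∀ᵐ α : ℝ, 1 < α →
      -- upper bound
      (∀ ε : ℝ, 0 < ε → ∀ᶠ n : ℕ in atTop,
        |P (b n * α ^ (a n))| ≤ (Real.log n) ^ (1 / 4 + ε) * √(b n * α ^ (a n))) ∧
      -- large positive and large negative values in short blocks of indices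
      (∀ ε η : ℝ, 0 < ε → 0 < η → ∀ᶠ N : ℕ in atTop,
        (∃ n : ℕ, N < n ∧ (n : ℝ) ≤ N + (N : ℝ) ^ η ∧
          (Real.log N) ^ (1 / 4 - ε) * √(b n * α ^ (a n)) ≤ P (b n * α ^ (a n))) ∧
        (∃ n : ℕ, N < n ∧ (n : ℝ) ≤ N + (N : ℝ) ^ η ∧
          P (b n * α ^ (a n)) ≤ -(Real.log N) ^ (1 / 4 - ε) * √(b n * α ^ (a n)))) :=
  Pool.Agent.Helper932CL.circMain a b δ hδ ha ha0 hb hb0 hgap

end Pool.Agent.Results.MP_fb29e9_nt.ExtremesAlongPowers
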