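import Pool.Agent.H648_sw.Mea

set_option autoImplicit false

open MeasureTheory Filter Topology

namespace Pool.Agent.Results.MP_fb29e9_nt.MeasureInWindows

open Pool.Agent.H383.Gauss (En)

/-- **How long the error term of the circle problem is large, in every window of radii.** Let
`P(r) = #{p ∈ ℤ² : |p| ≤ r} - πr²` and `V(H) = exp(c (log log H)^{1/4} (log log log H)^{-3/4})`. There are `c > 0` and
`H₀` such that for **all** windows `[R, R + H]` with `H₀ ≤ H ≤ R` the set of the radii `r` of the window with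
`P(r) ≥ V(H) √r` has measure at least `H² e^{-√(log H)} / (H + log R)`, and so has the set of the `r` with
`P(r) ≤ -V(H) √r`. So every window of a fixed length `H₀` contains radii of measure `≫ 1 / log R` with `P(r) ≥ c' √r` and
radii of measure `≫ 1 / log R` with `P(r) ≤ -c' √r`, and in windows with `H ≥ log R` the proportion of the radii with
`P(r) ≥ V(H) √r` is at least `e^{-√(log H)} / 2`.

Proof. A Riesz product as weight gives the large mean value with this weight; the mean square of the error term in the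
window is at most `C R (H + log R)`. -/
theorem result (P : ℝ → ℝ)
    (hP : ∀ r : ℝ, P r = (Nat.card {p : ℤ × ℤ // (p.1 : ℝ) ^ 2 + (p.2 : ℝ) ^ 2 ≤ r ^ 2} : ℝ) - Real.pi * r ^ 2) :
    ∃ c H₀ : ℝ, 0 < c ∧ ∀ R H : ℝ, H₀ ≤ H → H ≤ R →
      H ^ 2 * Real.exp (-√(Real.log H)) / (H + Real.log R) ≤
        volume.real {r : ℝ | R < r ∧ r ≤ R + H ∧
          √r * Real.exp (c * (Real.log (Real.log H)) ^ (1 / 4 : ℝ) *
            (Real.log (Real.log (Real.log H))) ^ (-(3 / 4) : ℝ)) ≤ P r} ∧
      H ^ 2 * Real.exp (-√(Real.log H)) / (H + Real.log R) ≤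
        volume.real {r : ℝ | R < r ∧ r ≤ R + H ∧
          P r ≤ -(√r * Real.exp (c * (Real.log (Real.log H)) ^ (1 / 4 : ℝ) *
            (Real.log (Real.log (Real.log H))) ^ (-(3 / 4) : ℝ)))} := by
  obtain ⟨H₀, hH₀, h⟩ := Pool.Agent.H648_sw.large_meas
  refine ⟨Pool.Agent.W24.Both.c1, H₀, Pool.Agent.W24.Both.c1_pos, fun R H hH hHR => ?_⟩
  obtain ⟨V, hV⟩ : ∃ V : ℝ, V = Real.exp (Pool.Agent.W24.Both.c1 * (Real.log (Real.log H)) ^ (1 / 4 : ℝ) *
      (Real.log (Real.log (Real.log H))) ^ (-(3 / 4) : ℝ)) := ⟨_, rfl⟩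
  have hPE : ∀ r : ℝ, P r / √r = En r := by
    intro r
    rw [hP]
    rfl
  have hR : 0 < R := by linarith
  have key : ∀ r : ℝ, R < r → P r = √r * En r := by
    intro r hr
    have hs : 0 < √r := Real.sqrt_pos.2 (by linarith)
    rw [← hPE]
    field_simp
  constructor
  · have h1 := h R H hH hHR 1 (Or.inl rfl)
    rw [← hV] at h1 ⊢
    convert h1 using 2
    ext r
    simp only [Set.mem_ofPred_eq]
    constructor
    · rintro ⟨a1, a2, a3⟩
      refine ⟨a1, a2, ?_⟩
      rw [key r a1] at a3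
      have hs : 0 < √r := Real.sqrt_pos.2 (by linarith)
      rw [one_mul]
      exact le_of_mul_le_mul_left a3 hs
    · rintro ⟨a1, a2, a3⟩
      refine ⟨a1, a2, ?_⟩
      rw [key r a1]
      rw [one_mul] at a3
      exact mul_le_mul_of_nonneg_left a3 (Real.sqrt_nonneg _)
  · have h1 := h R H hH hHR (-1) (Or.inr rfl)
    rw [← hV] at h1 ⊢
    convert h1 using 2
    ext r
    simp only [Set.mem_ofPred_eq]
    constructor
    · rintro ⟨a1, a2, a3⟩
      refine ⟨a1, a2, ?_⟩
      rw [key r a1] at a3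
      have hs : 0 < √r := Real.sqrt_pos.2 (by linarith)
      have a4 : √r * V ≤ √r * (-1 * En r) := by linarith
      exact le_of_mul_le_mul_left a4 hs
    · rintro ⟨a1, a2, a3⟩
      refine ⟨a1, a2, ?_⟩
      rw [key r a1]
      have a4 := mul_le_mul_of_nonneg_left a3 (Real.sqrt_nonneg r)
      linarith

end Pool.Agent.Results.MP_fb29e9_nt.MeasureInWindows
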