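import Pool.Agent.H648_sw.Alm

set_option autoImplicit false

open MeasureTheory Filter Topology

namespace Pool.Agent.Results.MP_fb29e9_nt.ShortWindows

open Pool.Agent.H383.Gauss (En)
open Pool.Agent.H383.Circ (ag rA_card)
open Pool.Agent.H648_sw (law_all av wm wm_int)

/-- **The circle problem in short windows of radii.** Let `P(R) = #{p ∈ ℤ² : |p| ≤ R} - πR²`. There is a law `ν`
(the one of Heath-Brown and Bleher) with an entire density, full support, mean `0` and variance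
`∑ r(m)² / (2π² m^{3/2})` such that, for every continuous `f` of at most quadratic growth,
`1/H ∫_R^{R+H} f(P(x)/√x) dx → ∫ f dν`, uniformly over **all** windows with `H ≤ R`, as soon as `H / log R → ∞`
and `R → ∞`.

Proof. The error term is compared with the trigonometric polynomials `U_M` of its Voronoi series. In a window of length
`H` the mean square of the part with the frequencies `√m`, `M² < m ≤ R^{1+ε}`, is bounded by the diagonal plus the pairs
with `|√m - √n| ≤ 1/H`, and these contribute at most `C (log R)/H` by a bound for the number of quadruples of lattice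
points with `|p|² - |q|² = h`, uniform in `h` on average. -/
theorem result (P : ℝ → ℝ)
    (hP : ∀ R : ℝ, P R = (Nat.card {p : ℤ × ℤ // (p.1 : ℝ) ^ 2 + (p.2 : ℝ) ^ 2 ≤ R ^ 2} : ℝ) - Real.pi * R ^ 2)
    (r : ℕ → ℕ) (hr : ∀ m : ℕ, r m = Nat.card {p : ℤ × ℤ // p.1 ^ 2 + p.2 ^ 2 = (m : ℤ)}) :
    ∃ (ν : ProbabilityMeasure ℝ) (G : ℂ → ℂ),
      Differentiable ℂ G ∧ (∀ x : ℝ, 0 ≤ (G x).re ∧ (G x).im = 0) ∧
      (ν : Measure ℝ) = volume.withDensity (fun x : ℝ => ENNReal.ofReal (G x).re) ∧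
      (∀ u v : ℝ, u < v → 0 < (ν : Measure ℝ) (Set.Ioo u v)) ∧
      Integrable (fun x : ℝ => x ^ 2) (ν : Measure ℝ) ∧
      ∫ x, x ∂(ν : Measure ℝ) = 0 ∧
      HasSum (fun m : ℕ => (r m : ℝ) ^ 2 / (2 * Real.pi ^ 2) * (m : ℝ) ^ (-(3 / 2) : ℝ)) (∫ x, x ^ 2 ∂(ν : Measure ℝ)) ∧
      ∀ f : ℝ → ℝ, Continuous f → (∃ C : ℝ, ∀ x, |f x| ≤ C * (1 + x ^ 2)) → ∀ η : ℝ, 0 < η →
        ∃ L R₀ : ℝ, 2 ≤ R₀ ∧ ∀ R H : ℝ, R₀ ≤ R → L * Real.log R ≤ H → H ≤ R →
          |(∫ x in R..(R + H), f (P x / √x)) / H - ∫ x, f x ∂(ν : Measure ℝ)| ≤ η := by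
  have hPE : ∀ R : ℝ, P R / √R = En R := by
    intro R
    rw [hP]
    rfl
  obtain ⟨ν, G, h1, h2, h3, h4, h5, h6, h7, h8, h9⟩ := law_all
  have hav : ∀ (f : ℝ → ℝ) (R H : ℝ), 0 < H → (∫ x in R..(R + H), f (P x / √x)) / H = av f R H := by
    intro f R H hH
    unfold av
    rw [wm_int R hH, smul_eq_mul]
    simp only [hPE]
    rw [one_div, div_eq_inv_mul]
  have hlog0 : ∀ R : ℝ, 2 ≤ R → 0 < Real.log R := fun R hR => Real.log_pos (by linarith)
  refine ⟨ν, G, h1, h2, h3, h4, h5, h6, ?_⟩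
  · constructor
    · convert h7 using 1
      funext m
      rcases Nat.eq_zero_or_pos m with rfl | hm
      · rw [if_neg (by norm_num), Nat.cast_zero, Real.zero_rpow (by norm_num), mul_zero]
      · have hm0 : (0 : ℝ) < m := by exact_mod_cast hm
        rw [if_pos (by omega)]
        unfold ag
        rw [rA_card, ← hr, mul_pow, ← Real.rpow_natCast (√(m : ℝ) ^ (-(3 / 2) : ℝ)), ← Real.rpow_mul (Real.sqrt_nonneg _), Real.sqrt_eq_rpow,
          ← Real.rpow_mul hm0.le]
        norm_num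
        have := Real.pi_ne_zero
        field_simp
    · intro f hf hC η hη
      obtain ⟨L, R₀, hL, hR₀, h⟩ := h8 f hf hC η hη
      refine ⟨L, R₀, hR₀, fun R H hR hH1 hH2 => ?_⟩
      have := hlog0 R (by linarith)
      rw [hav f R H (lt_of_lt_of_le (by positivity) hH1)]
      exact h R hR H hH1 hH2

end Pool.Agent.Results.MP_fb29e9_nt.ShortWindows
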